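import Pool.Agent.Helper86.QA.St4

/-!
# Project QD, part A, module DRC: the Dirichlet domain
-/

set_option autoImplicit false

open MeasureTheory Matrix Set Topology Filter
open scoped ENNReal ComplexConjugate ComplexOrder

namespace Pool.Agent.Helper13.QA

open Pool.Agent.Helper86.QA Pool.Agent.Helper20
open Pool.Agent.Helper35.PM (hs IsDiscrete ConvexCocompact IsQF limitSet density ent num classes
  SurfaceGroup)
open Pool.Agent.Helper20.QD (Fuch Good OutSide OneSide Lam inn out Qp Qinf sph act orb fr IsSU CC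
  mob Param)

private theorem drc_real (p r b1 b2 x1 x2 y1 y2 : ℝ) (hp : 0 < p) (h : b1 ^ 2 + b2 ^ 2 ≤ p * r) :
    0 ≤ p * (x1 ^ 2 + x2 ^ 2) + r * (y1 ^ 2 + y2 ^ 2) +
      2 * ((x1 * b1 - x2 * b2) * y1 + (x1 * b2 + x2 * b1) * y2) := by
  have h1 : 0 ≤ p * (p * (x1 ^ 2 + x2 ^ 2) + r * (y1 ^ 2 + y2 ^ 2) +
      2 * ((x1 * b1 - x2 * b2) * y1 + (x1 * b2 + x2 * b1) * y2)) := by
    have e : p * (p * (x1 ^ 2 + x2 ^ 2) + r * (y1 ^ 2 + y2 ^ 2) +
        2 * ((x1 * b1 - x2 * b2) * y1 + (x1 * b2 + x2 * b1) * y2)) =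
        (p * x1 + b1 * y1 + b2 * y2) ^ 2 + (p * x2 + b1 * y2 - b2 * y1) ^ 2 +
          (p * r - (b1 ^ 2 + b2 ^ 2)) * (y1 ^ 2 + y2 ^ 2) := by ring
    rw [e]
    have h2 : 0 ≤ p * r - (b1 ^ 2 + b2 ^ 2) := by linarith
    positivity
  exact nonneg_of_mul_nonneg_right h1 hp

private theorem drc_low {P : Mat} (hP : P.PosDef) (ht : P.trace = 1) :
    ∃ c : ℝ, 0 < c ∧ ∀ A : Mat, c * hs A ≤ (A * P * Aᴴ).trace.re := by
  have h0 := hP.diag_pos (i := (0 : Fin 2))
  have h1 := hP.diag_pos (i := (1 : Fin 2))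
  have hdet := hP.det_pos
  have hherm : P 1 0 = conj (P 0 1) := by
    have := hP.isHermitian.apply 1 0
    simpa using this.symm
  rw [Matrix.det_fin_two, hherm] at hdet
  rw [Matrix.trace_fin_two] at ht
  obtain ⟨a, ha⟩ : ∃ a : ℝ, P 0 0 = (a : ℂ) := ⟨(P 0 0).re, by
    apply Complex.ext
    · simp
    · simpa using (Complex.lt_def.1 h0).2.symm⟩
  obtain ⟨d, hd⟩ : ∃ d : ℝ, P 1 1 = (d : ℂ) := ⟨(P 1 1).re, by
    apply Complex.ext
    · simp
    · simpa using (Complex.lt_def.1 h1).2.symm⟩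
  obtain ⟨b1, b2, hb⟩ : ∃ b1 b2 : ℝ, P 0 1 = (b1 : ℂ) + b2 * Complex.I :=
    ⟨(P 0 1).re, (P 0 1).im, (Complex.re_add_im _).symm⟩
  rw [ha] at h0 ht hdet
  rw [hd] at h1 ht hdet
  have ha0 : 0 < a := by exact_mod_cast h0
  have hd0 : 0 < d := by exact_mod_cast h1
  have had : a + d = 1 := by exact_mod_cast ht
  have hc0 : 0 < a * d - (b1 ^ 2 + b2 ^ 2) := by
    have h2 := (Complex.lt_def.1 hdet).1
    rw [hb] at h2
    simp at h2
    nlinarith
  refine ⟨a * d - (b1 ^ 2 + b2 ^ 2), hc0, fun A => ?_⟩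
  obtain ⟨c, hc⟩ : ∃ c, c = a * d - (b1 ^ 2 + b2 ^ 2) := ⟨_, rfl⟩
  rw [← hc] at hc0 ⊢
  have hd1 : d = 1 - a := by linarith
  have hp : 0 < a - c := by
    rw [hc, hd1]
    nlinarith [sq_nonneg b1, sq_nonneg b2, mul_pos ha0 ha0]
  have hpr : b1 ^ 2 + b2 ^ 2 ≤ (a - c) * (d - c) := by
    have e : (a - c) * (d - c) - (b1 ^ 2 + b2 ^ 2) = c ^ 2 := by
      have e2 : b1 ^ 2 + b2 ^ 2 = a * d - c := by rw [hc]; ring
      rw [e2, hd1]
      ring
    nlinarith [sq_nonneg c]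
  have key : ∀ i, c * (‖A i 0‖ ^ 2 + ‖A i 1‖ ^ 2) ≤
      (A i 0 * P 0 0 * conj (A i 0) + A i 1 * P 1 0 * conj (A i 0) +
        (A i 0 * P 0 1 * conj (A i 1) + A i 1 * P 1 1 * conj (A i 1))).re := by
    intro i
    have h3 := drc_real (a - c) (d - c) b1 b2 (A i 0).re (A i 0).im (A i 1).re (A i 1).im hp hpr
    rw [hherm, ha, hd, hb, Complex.sq_norm, Complex.sq_norm, Complex.normSq_apply,
      Complex.normSq_apply]
    simp
    nlinarith
  have hs2 : hs A = (‖A 0 0‖ ^ 2 + ‖A 0 1‖ ^ 2) + (‖A 1 0‖ ^ 2 + ‖A 1 1‖ ^ 2) := by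
    simp [hs, Fin.sum_univ_two]
  have htr : (A * P * Aᴴ).trace =
      (A 0 0 * P 0 0 * conj (A 0 0) + A 0 1 * P 1 0 * conj (A 0 0) +
        (A 0 0 * P 0 1 * conj (A 0 1) + A 0 1 * P 1 1 * conj (A 0 1))) +
      (A 1 0 * P 0 0 * conj (A 1 0) + A 1 1 * P 1 0 * conj (A 1 0) +
        (A 1 0 * P 0 1 * conj (A 1 1) + A 1 1 * P 1 1 * conj (A 1 1))) := by
    simp only [Matrix.trace_fin_two, Matrix.mul_apply, Fin.sum_univ_two,
      Matrix.conjTranspose_apply]
    simp only [RCLike.star_def]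
    ring
  rw [htr, hs2, mul_add, Complex.add_re]
  exact add_le_add (key 0) (key 1)

private theorem drc_closed : IsClosed {P : Mat | P.PosSemidef} := by
  have h : {P : Mat | P.PosSemidef} = {P : Mat | Pᴴ = P} ∩
      ⋂ x : Fin 2 → ℂ, {P : Mat | 0 ≤ star x ⬝ᵥ (P *ᵥ x)} := by
    ext P
    simp only [mem_setOf_eq, mem_inter_iff, mem_iInter]
    exact Matrix.posSemidef_iff_dotProduct_mulVec
  rw [h]
  apply IsClosed.inter
  · exact isClosed_eq (by fun_prop) continuous_id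
  · apply isClosed_iInter
    intro x
    exact isClosed_le continuous_const (by fun_prop)

private theorem drc_bdd {P : Mat} (hP : P.PosSemidef) (ht : P.trace = 1) (i j : Fin 2) :
    P i j ∈ Metric.closedBall (0 : ℂ) 1 := by
  have h0 := hP.diag_nonneg (i := (0 : Fin 2))
  have h1 := hP.diag_nonneg (i := (1 : Fin 2))
  have hdet := hP.det_nonneg
  have hherm : P 1 0 = conj (P 0 1) := by
    have := hP.isHermitian.apply 1 0
    simpa using this.symm
  rw [Matrix.det_fin_two, hherm] at hdet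
  rw [Matrix.trace_fin_two] at ht
  obtain ⟨a, ha⟩ : ∃ a : ℝ, P 0 0 = (a : ℂ) := ⟨(P 0 0).re, by
    apply Complex.ext
    · simp
    · simpa using (Complex.le_def.1 h0).2.symm⟩
  obtain ⟨d, hd⟩ : ∃ d : ℝ, P 1 1 = (d : ℂ) := ⟨(P 1 1).re, by
    apply Complex.ext
    · simp
    · simpa using (Complex.le_def.1 h1).2.symm⟩
  rw [ha] at h0 ht hdet
  rw [hd] at h1 ht hdet
  have ha0 : 0 ≤ a := by exact_mod_cast h0
  have hd0 : 0 ≤ d := by exact_mod_cast h1
  have had : a + d = 1 := by exact_mod_cast ht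
  have hb : ‖P 0 1‖ ^ 2 ≤ a * d := by
    have h2 := (Complex.le_def.1 hdet).1
    rw [Complex.mul_conj] at h2
    rw [Complex.sq_norm]
    simp at h2
    linarith
  have hb1 : ‖P 0 1‖ ≤ 1 := by
    apply abs_le_of_sq_le_sq' _ zero_le_one |>.2
    nlinarith
  have hcase : ∀ i j : Fin 2, ‖P i j‖ ≤ 1 := by
    intro i j
    fin_cases i <;> fin_cases j
    · change ‖P 0 0‖ ≤ 1
      rw [ha, Complex.norm_real, Real.norm_eq_abs, abs_le]
      constructor <;> linarith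
    · exact hb1
    · change ‖P 1 0‖ ≤ 1
      rw [hherm, Complex.norm_conj]
      exact hb1
    · change ‖P 1 1‖ ≤ 1
      rw [hd, Complex.norm_real, Real.norm_eq_abs, abs_le]
      constructor <;> linarith
  rw [mem_closedBall_zero_iff]
  exact hcase i j

private theorem drc_compact {Γ : Type} [Group Γ] (ρ : Γ →* SL) : IsCompact (Dir ρ) := by
  have hK : IsCompact (Set.pi univ (fun _ : Fin 2 => Set.pi univ
      (fun _ : Fin 2 => Metric.closedBall (0 : ℂ) 1))) :=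
    isCompact_univ_pi fun _ => isCompact_univ_pi fun _ => isCompact_closedBall _ _
  refine IsCompact.of_isClosed_subset (X := Mat) hK ?_ ?_
  · have h : Dir ρ = {P : Mat | P.PosSemidef} ∩ ({P : Mat | P.trace = 1} ∩
        ⋂ γ : Γ, {P : Mat | 1 ≤ Nn (ρ γ) P}) := by
      ext P
      simp only [Dir, mem_setOf_eq, mem_inter_iff, mem_iInter]
    rw [h]
    refine drc_closed.inter (IsClosed.inter ?_ ?_)
    · exact isClosed_eq (by fun_prop) continuous_const
    · apply isClosed_iInter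
      intro γ
      refine isClosed_le continuous_const ?_
      unfold Nn
      exact Complex.continuous_re.comp (by fun_prop)
  · rintro P ⟨h1, h2, _⟩ i _ j _
    exact drc_bdd h1 h2 i j

private theorem drc_inj (A : SL) : Function.Injective (A : Mat).vecMul := by
  intro x y h
  have h1 : (x ᵥ* (A : Mat)) ᵥ* ((A : Mat)⁻¹) = (y ᵥ* (A : Mat)) ᵥ* ((A : Mat)⁻¹) := by
    change x ᵥ* (A : Mat) = y ᵥ* (A : Mat) at h
    rw [h]
  have hdet : IsUnit (A : Mat).det := by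
    rw [A.det_coe]
    exact isUnit_one
  rwa [Matrix.vecMul_vecMul, Matrix.vecMul_vecMul, Matrix.mul_nonsing_inv _ hdet,
    Matrix.vecMul_one, Matrix.vecMul_one] at h1

/-- DRC (Dirichlet domain) -/
theorem hDRC (_hLMX : QD.StLMX) : StDRC := by
  intro Γ _ ρ hdisc
  refine ⟨drc_compact ρ, ?_, ?_⟩
  · intro P hP ht
    obtain ⟨c, hc, hlow⟩ := drc_low hP ht
    obtain ⟨γ, hγS, hγ⟩ := Set.exists_min_image {γ : Γ | hs (ρ γ) ≤ Nn (ρ 1) P / c}
      (fun γ => Nn (ρ γ) P) (hdisc _) ⟨1, by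
        change hs (ρ 1) ≤ Nn (ρ 1) P / c
        rw [le_div_iff₀ hc, mul_comm]
        exact hlow _⟩
    have hmin : ∀ δ : Γ, Nn (ρ γ) P ≤ Nn (ρ δ) P := by
      intro δ
      by_cases hδ : hs (ρ δ) ≤ Nn (ρ 1) P / c
      · exact hγ δ hδ
      · push Not at hδ
        rw [div_lt_iff₀ hc, mul_comm] at hδ
        have h1 : Nn (ρ 1) P ≤ Nn (ρ δ) P := hδ.le.trans (hlow _)
        refine le_trans (hγ 1 ?_) h1
        change hs (ρ 1) ≤ Nn (ρ 1) P / c
        rw [le_div_iff₀ hc, mul_comm]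
        exact hlow _
    have hX : ((ρ γ : Mat) * P * (ρ γ : Mat)ᴴ).PosDef :=
      hP.mul_mul_conjTranspose_same (drc_inj _)
    obtain ⟨X, hXe⟩ : ∃ X, X = (ρ γ : Mat) * P * (ρ γ : Mat)ᴴ := ⟨_, rfl⟩
    rw [← hXe] at hX
    have hact : act (ρ γ) P = (X.trace)⁻¹ • X := by
      rw [hXe]
      rfl
    have htr : 0 < X.trace := hX.trace_pos
    obtain ⟨t, htt⟩ : ∃ t : ℝ, X.trace = (t : ℂ) := ⟨X.trace.re, by
      apply Complex.ext
      · simp
      · simpa using (Complex.lt_def.1 htr).2.symm⟩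
    have ht0 : 0 < t := by
      rw [htt] at htr
      exact_mod_cast htr
    have hNn : Nn (ρ γ) P = t := by
      unfold Nn
      rw [← hXe, htt]
      simp
    have hpd : (act (ρ γ) P).PosDef := by
      rw [hact]
      apply hX.smul
      rw [htt, ← Complex.ofReal_inv]
      exact_mod_cast inv_pos.2 ht0
    refine ⟨γ, ⟨hpd.posSemidef, ?_, ?_⟩, hpd⟩
    · rw [hact, Matrix.trace_smul, smul_eq_mul, inv_mul_cancel₀ htr.ne']
    · intro δ
      have e1 : Nn (ρ δ) (act (ρ γ) P) = t⁻¹ * Nn (ρ (δ * γ)) P := by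
        unfold Nn
        rw [hact, htt, map_mul, Matrix.SpecialLinearGroup.coe_mul, Matrix.conjTranspose_mul,
          Matrix.mul_smul, Matrix.smul_mul, Matrix.trace_smul, smul_eq_mul, ← Complex.ofReal_inv,
          Complex.re_ofReal_mul]
        congr 3
        rw [hXe]
        simp only [Matrix.mul_assoc]
      rw [e1, ← hNn, inv_mul_eq_div, one_le_div (hNn ▸ ht0)]
      exact hmin _
  · intro hcon
    rw [Set.disjoint_left]
    intro Q hQ hQL
    obtain ⟨γ, hγ⟩ := hcon Q hQL 1 one_pos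
    exact absurd (hQ.2.2 γ) (not_le.2 hγ)

end Pool.Agent.Helper13.QA
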